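import Mathlib

/-
Pieces cut out of balls around random centres.
-/

namespace Pool.Agent.MP_66cee2_co.H44U

open MeasureTheory Set Metric ProbabilityTheory
open scoped RealInnerProductSpace ENNReal

section piece

variable {V : Type} [NormedAddCommGroup V] [InnerProductSpace ℝ V]

theorem piece (u w : V) (hu : ‖u‖ ≤ 1 / 2) (h : 27 / 16 < ‖w - (3 / 2 : ℝ) • u‖ ^ 2) :
    2 * ⟪w, u⟫ < ‖w‖ ^ 2 - ‖w‖ := by
  rw [norm_sub_sq_real, real_inner_smul_right, norm_smul, Real.norm_eq_abs,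
    abs_of_pos (by norm_num : (0 : ℝ) < 3 / 2)] at h
  nlinarith [sq_nonneg (‖w‖ - 3 / 2), norm_nonneg u]

theorem sep (c c' x y : V) (hx : ‖x - c‖ ≤ 1 / 2) (hy : ‖y - c'‖ ≤ 1 / 2)
    (h1 : 27 / 16 < ‖c' - c - (3 / 2 : ℝ) • (x - c)‖ ^ 2)
    (h2 : 27 / 16 < ‖c - c' - (3 / 2 : ℝ) • (y - c')‖ ^ 2) : 1 < ‖y - x‖ := by
  have a1 := piece _ _ hx h1
  have a2 := piece _ _ hy h2
  rw [← neg_sub c' c, inner_neg_left, norm_neg] at a2
  have e : y - x = (y - c') + (c' - c) - (x - c) := by abel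
  have a3 : ⟪c' - c, y - x⟫ = ⟪c' - c, y - c'⟫ + ‖c' - c‖ ^ 2 - ⟪c' - c, x - c⟫ := by
    rw [e, inner_sub_right, inner_add_right, real_inner_self_eq_norm_sq]
  have a4 := real_inner_le_norm (c' - c) (y - x)
  by_contra hc
  have := mul_le_mul_of_nonneg_left (not_lt.1 hc) (norm_nonneg (c' - c))
  linarith

/-- the point `z` is good for the centre `i`. -/
def Gd {m : ℕ} (r ρ : ℝ) (A : Fin m → V) (i : Fin m) (z : V) : Prop :=
  ‖z - A i‖ < r ∧ ∀ j, j ≠ i → ρ < ‖A j - A i - (3 / 2 : ℝ) • (z - A i)‖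

theorem Gd.move {m : ℕ} {r ρ ε : ℝ} {A : Fin m → V} {i : Fin m} {z x : V} (h : Gd r ρ A i z)
    (hx : ‖x - z‖ ≤ ε) : Gd (r + ε) (ρ - 3 / 2 * ε) A i x := by
  refine ⟨?_, fun j hj => ?_⟩
  · have := norm_add_le (x - z) (z - A i)
    rw [sub_add_sub_cancel] at this
    linarith [h.1]
  · have a1 := h.2 j hj
    have e : A j - A i - (3 / 2 : ℝ) • (z - A i) =
        (A j - A i - (3 / 2 : ℝ) • (x - A i)) + (3 / 2 : ℝ) • (x - z) := by module
    have a2 := norm_add_le (A j - A i - (3 / 2 : ℝ) • (x - A i)) ((3 / 2 : ℝ) • (x - z))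
    rw [← e, norm_smul, Real.norm_eq_abs, abs_of_pos (by norm_num : (0 : ℝ) < 3 / 2)] at a2
    linarith

theorem Gd.far {m : ℕ} {r ρ : ℝ} {A : Fin m → V} {i j : Fin m} {x y : V} (hr : r ≤ 1 / 2)
    (h0 : 0 ≤ ρ) (hρ : 27 / 16 ≤ ρ ^ 2) (hx : Gd r ρ A i x) (hy : Gd r ρ A j y) (hij : i ≠ j) :
    1 < ‖y - x‖ :=
  sep (A i) (A j) x y (hx.1.le.trans hr) (hy.1.le.trans hr)
    (hρ.trans_lt (pow_lt_pow_left₀ (hx.2 j hij.symm) h0 two_ne_zero))
    (hρ.trans_lt (pow_lt_pow_left₀ (hy.2 i hij) h0 two_ne_zero))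

theorem Gd.ne {m : ℕ} {r ρ : ℝ} {A : Fin m → V} {i j : Fin m} {x y : V} (hr : r ≤ 1 / 2)
    (h0 : 0 ≤ ρ) (hρ : 27 / 16 ≤ ρ ^ 2) (hx : Gd r ρ A i x) (hy : Gd r ρ A j y) :
    ‖y - x‖ ≠ 1 := by
  by_cases hij : i = j
  · subst hij
    have := norm_sub_le (y - A i) (x - A i)
    rw [sub_sub_sub_cancel_right] at this
    linarith [hx.1, hy.1, ne_of_lt (show ‖y - x‖ < 1 by linarith [hx.1, hy.1])]
  · exact (Gd.far hr h0 hρ hx hy hij).ne'

theorem Gd.isOpen {m : ℕ} (r ρ : ℝ) (i : Fin m) (z : V) :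
    IsOpen {A : Fin m → V | Gd r ρ A i z} := by
  have e : {A : Fin m → V | Gd r ρ A i z} = {A | ‖z - A i‖ < r} ∩
      ⋂ j ∈ Finset.univ.erase i, {A | ρ < ‖A j - A i - (3 / 2 : ℝ) • (z - A i)‖} := by
    ext A
    simp [Gd]
  rw [e]
  exact (isOpen_lt (by fun_prop) continuous_const).inter
    (isOpen_biInter_finset fun j _ => isOpen_lt continuous_const (by fun_prop))

end piece

theorem pair {V : Type} [MeasurableSpace V] (μ : Measure V) [IsProbabilityMeasure μ] {m : ℕ}
    {i j : Fin m} (hij : i ≠ j) (W : Set (V × V)) (hW : MeasurableSet W) (T : Set V)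
    (hT : MeasurableSet T) (v : ℝ) (hv : 0 ≤ v) (h1 : ∀ a, μ.real (Prod.mk a ⁻¹' W) ≤ v)
    (h2 : ∀ p ∈ W, p.1 ∈ T) :
    (Measure.pi fun _ : Fin m => μ).real {A | (A i, A j) ∈ W} ≤ v * μ.real T := by
  have hI := (iIndepFun_pi (μ := fun _ : Fin m => μ) (X := fun _ => id)
    (fun _ => aemeasurable_id)).indepFun hij
  have hm := (indepFun_iff_map_prod_eq_prod_map_map (μ := Measure.pi fun _ : Fin m => μ)
    (measurable_pi_apply i).aemeasurable (measurable_pi_apply j).aemeasurable).1 hI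
  rw [(measurePreserving_eval (fun _ : Fin m => μ) i).map_eq,
    (measurePreserving_eval (fun _ : Fin m => μ) j).map_eq] at hm
  have e : (Measure.pi fun _ : Fin m => μ) {A | (A i, A j) ∈ W} = μ.prod μ W := by
    rw [← hm, Measure.map_apply (by fun_prop) hW]
    rfl
  have b : μ.prod μ W ≤ ENNReal.ofReal v * μ T := by
    rw [Measure.prod_apply hW, ← lintegral_indicator_const hT]
    refine lintegral_mono fun a => ?_
    by_cases ha : a ∈ T
    · rw [indicator_of_mem ha, ← ofReal_measureReal]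
      exact ENNReal.ofReal_le_ofReal (h1 a)
    · have : Prod.mk a ⁻¹' W = ∅ := eq_empty_of_forall_notMem fun y hy => ha (h2 _ hy)
      simp [this]
  rw [measureReal_def, e, measureReal_def, ← ENNReal.toReal_ofReal hv, ← ENNReal.toReal_mul]
  exact ENNReal.toReal_mono (by finiteness) b

theorem prob {d m : ℕ} (μ : Measure (EuclideanSpace ℝ (Fin d))) [IsProbabilityMeasure μ]
    (r ρ v : ℝ) (hr : r ≤ 1 / 2) (h0 : 0 ≤ ρ) (hρ : 27 / 16 ≤ ρ ^ 2) (hv : 0 ≤ v)
    (hb : ∀ c, μ.real (closedBall c ρ) ≤ v) (z : EuclideanSpace ℝ (Fin d)) :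
    m * (μ.real (ball z r) * (1 - m * v)) ≤
      (Measure.pi fun _ : Fin m => μ).real (⋃ i, {A | Gd r ρ A i z}) := by
  rw [measureReal_iUnion_fintype (fun i j hij => disjoint_left.2 fun A hi hj => by
    have := Gd.far hr h0 hρ hi hj hij
    rw [sub_self, norm_zero] at this
    linarith) (fun i => (Gd.isOpen r ρ i z).measurableSet)]
  have key : ∀ i : Fin m, μ.real (ball z r) * (1 - m * v) ≤
      (Measure.pi fun _ : Fin m => μ).real {A | Gd r ρ A i z} := by
    intro i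
    set W : Set (EuclideanSpace ℝ (Fin d) × EuclideanSpace ℝ (Fin d)) :=
      {p | p.1 ∈ ball z r} ∩ {p | ‖p.2 - p.1 - (3 / 2 : ℝ) • (z - p.1)‖ ≤ ρ} with hWd
    have hW : MeasurableSet W := (measurable_fst measurableSet_ball).inter
      (isClosed_le (by fun_prop) continuous_const).measurableSet
    have h1 : ∀ a, μ.real (Prod.mk a ⁻¹' W) ≤ v := fun a => by
      refine le_trans (measureReal_mono fun y hy => ?_) (hb (a + (3 / 2 : ℝ) • (z - a)))
      rw [mem_closedBall, dist_eq_norm, ← sub_sub]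
      exact hy.2
    have sub : (fun A : Fin m → EuclideanSpace ℝ (Fin d) => A i) ⁻¹' ball z r ⊆
        {A | Gd r ρ A i z} ∪ ⋃ j ∈ Finset.univ.erase i, {A | (A i, A j) ∈ W} := by
      intro A hA
      by_cases hg : Gd r ρ A i z
      · exact Or.inl hg
      · right
        have a1 : ‖z - A i‖ < r := by
          rw [← dist_eq_norm, dist_comm]
          exact hA
        simp only [Gd, a1, true_and, not_forall, not_lt] at hg
        obtain ⟨j, hj, hj'⟩ := hg
        exact mem_iUnion₂.2 ⟨j, by simpa using hj, hA, hj'⟩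
    have b1 := (measureReal_mono (μ := Measure.pi fun _ : Fin m => μ) sub).trans
      (measureReal_union_le _ _)
    have b2 := measureReal_biUnion_finset_le (μ := Measure.pi fun _ : Fin m => μ)
      (Finset.univ.erase i) fun j => {A | (A i, A j) ∈ W}
    have b3 : ∑ j ∈ Finset.univ.erase i, (Measure.pi fun _ : Fin m => μ).real
        {A | (A i, A j) ∈ W} ≤ m * (v * μ.real (ball z r)) := by
      refine (Finset.sum_le_card_nsmul _ _ (v * μ.real (ball z r)) fun j hj =>
        pair μ (Finset.ne_of_mem_erase hj).symm W hW _ measurableSet_ball v hv h1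
          fun p hp => hp.1).trans ?_
      rw [nsmul_eq_mul]
      refine mul_le_mul_of_nonneg_right ?_ (by positivity)
      exact_mod_cast Finset.card_erase_le.trans (by simp)
    have b4 : (Measure.pi fun _ : Fin m => μ).real
        ((fun A : Fin m → EuclideanSpace ℝ (Fin d) => A i) ⁻¹' ball z r) = μ.real (ball z r) :=
      (measurePreserving_eval (fun _ : Fin m => μ) i).measureReal_preimage
        measurableSet_ball.nullMeasurableSet
    linarith
  simpa using Finset.card_nsmul_le_sum Finset.univ _ _ fun i _ => key i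

theorem cover {Ω Z : Type} [MeasurableSpace Ω] [Fintype Z] (P : Measure Ω)
    [IsProbabilityMeasure P] (G : Z → Set Ω) (hG : ∀ z, MeasurableSet (G z)) (p : ℝ)
    (hp1 : p ≤ 1) (hp : ∀ z, p ≤ P.real (G z)) (N : ℕ) :
    ∃ (ω : Fin N → Ω) (U : Finset Z), (U.card : ℝ) ≤ (1 - p) ^ N * Fintype.card Z ∧
      ∀ z, z ∉ U → ∃ k, ω k ∈ G z := by
  classical
  induction N with
  | zero => exact ⟨Fin.elim0, Finset.univ, by simp, fun z hz => by simp at hz⟩
  | succ n ih =>
    obtain ⟨ω, U, h1, h2⟩ := ih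
    have hi : ∀ z ∈ U, Integrable ((G z).indicator fun _ => (1 : ℝ)) P := fun z _ =>
      (integrable_const _).indicator (hG z)
    obtain ⟨a, ha⟩ := exists_integral_le (integrable_finsetSum U hi)
    rw [integral_finsetSum U hi] at ha
    have b1 : (U.card : ℝ) * p ≤ ∑ z ∈ U, ∫ a, (G z).indicator (fun _ => (1 : ℝ)) a ∂P := by
      rw [← nsmul_eq_mul]
      refine Finset.card_nsmul_le_sum _ _ _ fun z _ => ?_
      rw [integral_indicator_const _ (hG z), smul_eq_mul, mul_one]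
      exact hp z
    have b2 : ∑ z ∈ U, (G z).indicator (fun _ => (1 : ℝ)) a =
        ((U.filter fun z => a ∈ G z).card : ℝ) := by
      simp [indicator_apply]
    have b3 : ((U.filter fun z => a ∈ G z).card : ℝ) + (U.filter fun z => a ∉ G z).card =
        U.card := by exact_mod_cast Finset.card_filter_add_card_filter_not _
    refine ⟨Fin.cons a ω, U.filter fun z => a ∉ G z, ?_, fun z hz => ?_⟩
    · have := mul_le_mul_of_nonneg_left h1 (sub_nonneg.2 hp1)
      rw [pow_succ]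
      nlinarith
    · by_cases hU : z ∈ U
      · refine ⟨0, ?_⟩
        simpa [hU] using hz
      · obtain ⟨k, hk⟩ := h2 z hU
        exact ⟨k.succ, by simpa using hk⟩

end Pool.Agent.MP_66cee2_co.H44U
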