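import Pool.Agent.MP_66cee2_co.H44U.A

/-
From the pieces to a map that preserves unit distances and is not an isometry.
-/

namespace Pool.Agent.MP_66cee2_co.H44U

open MeasureTheory Set Metric ProbabilityTheory Filter Topology

theorem fin_cover {d : ℕ} (hd : 1 ≤ d) {Z : Type} [Fintype Z] (z : Z → EuclideanSpace ℝ (Fin d))
    (r ρ : ℝ) (r0 : 0 < r) (hr : r ≤ 1 / 2) (h0 : 0 < ρ) (hρ : 27 / 16 ≤ ρ ^ 2) (N : ℕ)
    (hN : (Fintype.card Z : ℝ) < Real.exp ((r / ρ) ^ d / 8 * N)) :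
    ∃ (m : ℕ) (ω : Fin N → Fin m → EuclideanSpace ℝ (Fin d)), ∀ t, ∃ k i,
      Gd r ρ (ω k) i (z t) := by
  have s0 : 0 ≤ ∑ t, ‖z t‖ := Finset.sum_nonneg fun _ _ => norm_nonneg _
  set R : ℝ := 4 * ρ + 1 + ∑ t, ‖z t‖ with hR
  have R0 : 0 < R := by positivity
  have hz : ∀ t, ball (z t) r ⊆ ball 0 R := fun t => ball_subset_ball' (by
    have := Finset.single_le_sum (f := fun t => ‖z t‖) (fun _ _ => norm_nonneg _)
      (Finset.mem_univ t)
    rw [dist_zero_right]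
    linarith)
  set c : ℝ := volume.real (ball (0 : EuclideanSpace ℝ (Fin d)) 1) with hc
  have c0 : 0 < c := ENNReal.toReal_pos (measure_ball_pos _ _ one_pos).ne' measure_ball_lt_top.ne
  have vb : ∀ (x : EuclideanSpace ℝ (Fin d)) (s : ℝ), 0 < s → volume.real (ball x s) = s ^ d * c :=
    fun x s hs => by
      rw [measureReal_def, Measure.addHaar_ball_of_pos _ x hs, ENNReal.toReal_mul,
        ENNReal.toReal_ofReal (by positivity), finrank_euclideanSpace_fin, hc, measureReal_def]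
  set μ := cond volume (ball (0 : EuclideanSpace ℝ (Fin d)) R) with hμ
  have : IsProbabilityMeasure μ :=
    cond_isProbabilityMeasure_of_finite (measure_ball_pos _ _ R0).ne' measure_ball_lt_top.ne
  have mr : ∀ s, μ.real s = (R ^ d * c)⁻¹ * volume.real (ball 0 R ∩ s) := fun s => by
    rw [← vb 0 R R0, measureReal_def, hμ, cond_apply measurableSet_ball, ENNReal.toReal_mul,
      ENNReal.toReal_inv, measureReal_def, measureReal_def]
  set v : ℝ := (ρ / R) ^ d with hv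
  have v0 : 0 < v := by positivity
  have v4 : v ≤ 1 / 4 := by
    have a1 : ρ / R ≤ 1 / 4 := by
      rw [div_le_iff₀ R0]
      linarith
    exact (pow_le_of_le_one (by positivity) (by linarith) (by omega)).trans a1
  have hb : ∀ x, μ.real (closedBall x ρ) ≤ v := fun x => by
    have a1 : volume.real (ball 0 R ∩ closedBall x ρ) ≤ ρ ^ d * c := by
      refine (measureReal_mono inter_subset_right measure_closedBall_lt_top.ne).trans ?_
      rw [Measure.addHaar_real_closedBall _ x h0.le, finrank_euclideanSpace_fin]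
    rw [mr]
    refine (mul_le_mul_of_nonneg_left a1 (by positivity)).trans (le_of_eq ?_)
    rw [hv, div_pow]
    field_simp
  have hq : ∀ t, μ.real (ball (z t) r) = (r / ρ) ^ d * v := fun t => by
    rw [mr, inter_eq_self_of_subset_right (hz t), vb _ _ r0, hv, div_pow, div_pow]
    field_simp
  set m : ℕ := ⌊1 / (2 * v)⌋₊ with hm
  have m1 : (m : ℝ) * v ≤ 1 / 2 := by
    have := (le_div_iff₀ (by positivity)).1 (Nat.floor_le (a := 1 / (2 * v)) (by positivity))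
    linarith
  have m2 : 1 / 4 ≤ (m : ℝ) * v := by
    have := (div_lt_iff₀ (by positivity)).1 (Nat.lt_floor_add_one (1 / (2 * v)))
    linarith
  have q0 : 0 < (r / ρ) ^ d := by positivity
  have q1 : (r / ρ) ^ d ≤ 1 := pow_le_one₀ (by positivity) ((div_le_one h0).2 (by nlinarith))
  obtain ⟨ω, U, h1, h2⟩ := cover (Measure.pi fun _ : Fin m => μ)
    (fun t => ⋃ i, {A | Gd r ρ A i (z t)})
    (fun t => (isOpen_iUnion fun i => Gd.isOpen r ρ i (z t)).measurableSet) ((r / ρ) ^ d / 8)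
    (by linarith) (fun t => by
      refine le_trans ?_ (prob μ r ρ v hr h0.le hρ v0.le hb (z t))
      rw [hq]
      have a1 : 1 / 8 ≤ m * v * (1 - m * v) := by nlinarith
      have := mul_le_mul_of_nonneg_left a1 q0.le
      linarith) N
  have hU : U = ∅ := by
    have a1 : (1 - (r / ρ) ^ d / 8) ^ N ≤ Real.exp (-((r / ρ) ^ d / 8 * N)) := by
      rw [← neg_mul, mul_comm, Real.exp_nat_mul]
      exact pow_le_pow_left₀ (by linarith) (Real.one_sub_le_exp_neg _) N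
    have a2 := mul_le_mul_of_nonneg_right a1 (Nat.cast_nonneg (α := ℝ) (Fintype.card Z))
    have a3 := mul_lt_mul_of_pos_left hN (Real.exp_pos (-((r / ρ) ^ d / 8 * N)))
    rw [← Real.exp_add, neg_add_cancel, Real.exp_zero] at a3
    have a4 : (U.card : ℝ) < 1 := by linarith
    have a5 : U.card < 1 := by exact_mod_cast a4
    exact Finset.card_eq_zero.1 (by omega)
  refine ⟨m, ω, fun t => ?_⟩
  obtain ⟨k, hk⟩ := h2 t (by simp [hU])
  obtain ⟨i, hi⟩ := mem_iUnion.1 hk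
  exact ⟨k, i, hi⟩

theorem grid {d K : ℕ} (hd : 1 ≤ d) (hK : 1 ≤ K) (x : EuclideanSpace ℝ (Fin d))
    (hx : ∀ i, 0 ≤ x i ∧ x i < 2 * d + 1) : ∃ t : Fin d → Fin ((2 * d + 1) * (K * d)),
      ‖x - WithLp.toLp 2 fun i => ((t i : ℕ) : ℝ) / (K * d)‖ ≤ 1 / K := by
  have d0 : (1 : ℝ) ≤ d := by exact_mod_cast hd
  have K0 : (1 : ℝ) ≤ K := by exact_mod_cast hK
  have p0 : (0 : ℝ) < K * d := by positivity
  have lt : ∀ i, ⌊x i * (K * d)⌋₊ < (2 * d + 1) * (K * d) := fun i => by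
    rw [Nat.floor_lt (mul_nonneg (hx i).1 p0.le)]
    push_cast
    exact mul_lt_mul_of_pos_right (hx i).2 p0
  refine ⟨fun i => ⟨_, lt i⟩, ?_⟩
  refine le_of_sq_le_sq ?_ (by positivity)
  rw [EuclideanSpace.norm_sq_eq]
  have b : ∀ i, ‖(x - WithLp.toLp 2 fun i => ((⌊x i * (K * d)⌋₊ : ℕ) : ℝ) / (K * d)) i‖ ^ 2 ≤
      (1 / (K * d)) ^ 2 := fun i => by
    refine pow_le_pow_left₀ (norm_nonneg _) ?_ 2
    have a1 := Nat.floor_le (mul_nonneg (hx i).1 p0.le)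
    have a2 := Nat.lt_floor_add_one (x i * (K * d))
    have e : x i - (⌊x i * (K * d)⌋₊ : ℝ) / (K * d) =
        (x i * (K * d) - ⌊x i * (K * d)⌋₊) / (K * d) := by field_simp
    rw [PiLp.sub_apply, PiLp.toLp_apply, Real.norm_eq_abs, e,
      abs_of_nonneg (div_nonneg (by linarith) p0.le)]
    exact div_le_div_of_nonneg_right (by linarith) p0.le
  refine (Finset.sum_le_card_nsmul _ _ _ fun i _ => b i).trans ?_
  rw [Finset.card_univ, Fintype.card_fin, nsmul_eq_mul, div_pow, div_pow, one_pow, mul_one_div,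
    div_le_div_iff₀ (by positivity) (by positivity)]
  nlinarith [mul_le_mul_of_nonneg_left d0 (show (0 : ℝ) ≤ d * K ^ 2 by positivity)]

theorem shift {d : ℕ} (x : EuclideanSpace ℝ (Fin d)) : ∃ (s : ZMod (d + 1)) (k : Fin d → ℤ),
    ∀ i, (s.val : ℝ) + 1 ≤ x i - (d + 1) * k i ∧ x i - (d + 1) * k i < s.val + d + 1 := by
  obtain ⟨s, hs⟩ : ∃ s : ZMod (d + 1), ∀ i, ((⌊x i⌋ : ℤ) : ZMod (d + 1)) ≠ s := by
    by_contra h
    simp only [not_exists, not_forall, not_not] at h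
    have := Fintype.card_le_of_surjective (fun i => ((⌊x i⌋ : ℤ) : ZMod (d + 1))) h
    simp at this
  refine ⟨s, fun i => (⌊x i⌋ - s.val) / (d + 1), fun i => ?_⟩
  beta_reduce
  have a1 := Int.emod_add_mul_ediv (⌊x i⌋ - s.val) (d + 1)
  have a2 := Int.emod_nonneg (⌊x i⌋ - s.val) (b := (d : ℤ) + 1) (by omega)
  have a3 := Int.emod_lt_of_pos (⌊x i⌋ - s.val) (b := (d : ℤ) + 1) (by omega)
  have a4 : (⌊x i⌋ - s.val) % ((d : ℤ) + 1) ≠ 0 := fun h => hs i (by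
    have := (ZMod.intCast_zmod_eq_zero_iff_dvd (⌊x i⌋ - s.val) (d + 1)).2
      (by exact_mod_cast Int.dvd_of_emod_eq_zero h)
    simpa [sub_eq_zero] using this)
  generalize (⌊x i⌋ - s.val) / ((d : ℤ) + 1) = k at *
  generalize (⌊x i⌋ - s.val) % ((d : ℤ) + 1) = e at *
  have b1 : (s.val : ℤ) + 1 ≤ ⌊x i⌋ - (d + 1) * k := by omega
  have b2 : ⌊x i⌋ - (d + 1) * k ≤ (s.val : ℤ) + d := by omega
  have c1 : (s.val : ℝ) + 1 ≤ (⌊x i⌋ : ℝ) - (d + 1) * k := by exact_mod_cast b1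
  have c2 : (⌊x i⌋ : ℝ) - (d + 1) * k ≤ (s.val : ℝ) + d := by exact_mod_cast b2
  exact ⟨by linarith [Int.floor_le (x i)], by linarith [Int.lt_floor_add_one (x i)]⟩

theorem extend {d : ℕ} {C : Type} (g : EuclideanSpace ℝ (Fin d) → C)
    (hg : ∀ x y : EuclideanSpace ℝ (Fin d), (∀ i, 0 ≤ x i ∧ x i < 2 * d + 1) →
      (∀ i, 0 ≤ y i ∧ y i < 2 * d + 1) → ‖x - y‖ = 1 → g x ≠ g y) :
    ∃ col : EuclideanSpace ℝ (Fin d) → ZMod (d + 1) × C, ∀ x y, ‖x - y‖ = 1 → col x ≠ col y := by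
  choose s k h using shift (d := d)
  have box : ∀ x : EuclideanSpace ℝ (Fin d), ∀ i,
      0 ≤ (x - WithLp.toLp 2 fun i => ((d : ℝ) + 1) * k x i) i ∧
        (x - WithLp.toLp 2 fun i => ((d : ℝ) + 1) * k x i) i < 2 * d + 1 := fun x i => by
    have a1 : ((s x).val : ℝ) ≤ d := by exact_mod_cast Nat.lt_succ_iff.1 (ZMod.val_lt (s x))
    have a2 : (0 : ℝ) ≤ (s x).val := Nat.cast_nonneg _
    rw [PiLp.sub_apply, PiLp.toLp_apply]
    exact ⟨by linarith [(h x i).1], by linarith [(h x i).2]⟩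
  have gap : ∀ (x y : EuclideanSpace ℝ (Fin d)) (i : Fin d), s x = s y → ‖x - y‖ = 1 →
      k x i ≤ k y i := fun x y i hs hn => by
    by_contra hc
    have a1 : (k y i : ℝ) + 1 ≤ k x i := by exact_mod_cast not_le.1 hc
    have a2 := mul_le_mul_of_nonneg_left a1 (show (0 : ℝ) ≤ d + 1 by positivity)
    have a3 := PiLp.norm_apply_le (x - y) i
    rw [hn, PiLp.sub_apply, Real.norm_eq_abs] at a3
    have a4 := (h x i).1
    have a5 := (h y i).2
    rw [hs] at a4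
    linarith [le_abs_self (x i - y i)]
  refine ⟨fun x => (s x, g (x - WithLp.toLp 2 fun i => ((d : ℝ) + 1) * k x i)),
    fun x y hn he => ?_⟩
  obtain ⟨e1, e2⟩ := Prod.mk.inj he
  have e3 : k x = k y := funext fun i =>
    le_antisymm (gap x y i e1 hn) (gap y x i e1.symm (by rw [norm_sub_rev, hn]))
  refine hg _ _ (box x) (box y) ?_ e2
  rw [e3, sub_sub_sub_cancel_right, hn]

theorem to_map {d n : ℕ} (hd : 1 ≤ d) {C : Type} [Fintype C] (hn : Fintype.card C ≤ n)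
    (col : EuclideanSpace ℝ (Fin d) → C) (h : ∀ x y, ‖x - y‖ = 1 → col x ≠ col y) :
    ∃ f : EuclideanSpace ℝ (Fin d) → EuclideanSpace ℝ (Fin n),
      (∀ x y, ‖x - y‖ = 1 → ‖f x - f y‖ = 1) ∧ ¬ ∀ x y, ‖f x - f y‖ = ‖x - y‖ := by
  obtain ⟨e⟩ := Function.Embedding.nonempty_of_card_le (α := C) (β := Fin n) (by simpa using hn)
  have s2 : (√(1 / 2) : ℝ) ^ 2 = 1 / 2 := Real.sq_sqrt (by norm_num)
  have s0 : (0 : ℝ) ≤ √(1 / 2) := Real.sqrt_nonneg _
  have nf : ∀ a : Fin n, ‖EuclideanSpace.single a (√(1 / 2) : ℝ)‖ = √(1 / 2) := fun a => by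
    rw [PiLp.norm_single, Real.norm_of_nonneg s0]
  refine ⟨fun x => EuclideanSpace.single (e (col x)) (√(1 / 2) : ℝ), fun x y hxy => ?_,
    fun hall => ?_⟩
  · have ne : e (col x) ≠ e (col y) := fun hh => h x y hxy (e.injective hh)
    rw [← sq_eq_sq₀ (norm_nonneg _) zero_le_one, norm_sub_sq_real, nf, nf, s2,
      EuclideanSpace.inner_single_left]
    simp [ne]
    norm_num
  · have a1 := hall (EuclideanSpace.single ⟨0, hd⟩ (2 : ℝ)) 0
    have a2 := norm_sub_le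
      (EuclideanSpace.single (e (col (EuclideanSpace.single ⟨0, hd⟩ (2 : ℝ)))) (√(1 / 2) : ℝ))
      (EuclideanSpace.single (e (col 0)) (√(1 / 2) : ℝ))
    rw [a1, nf, nf, sub_zero, PiLp.norm_single, Real.norm_of_nonneg zero_le_two] at a2
    nlinarith

theorem colour {d K : ℕ} (hd : 1 ≤ d) (hK : 1 ≤ K) (κ : ℝ) (κ0 : 0 < κ) (hκ : 27 / 16 ≤ κ ^ 2)
    (r0 : (0 : ℝ) < 1 / 2 - 1 / K) (N : ℕ)
    (hN : (((2 * d + 1) * (K * d) : ℕ) : ℝ) * d ≤
      ((1 / 2 - 1 / K) / (κ + 3 / 2 * (1 / K))) ^ d / 8 * N) :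
    ∃ col : EuclideanSpace ℝ (Fin d) → ZMod (d + 1) × Option (Fin N),
      ∀ x y, ‖x - y‖ = 1 → col x ≠ col y := by
  have K0 : (0 : ℝ) < 1 / K := by positivity
  obtain ⟨m, ω, h⟩ := fin_cover hd (fun t : Fin d → Fin ((2 * d + 1) * (K * d)) =>
    (WithLp.toLp 2 fun i => ((t i : ℕ) : ℝ) / (K * d) : EuclideanSpace ℝ (Fin d)))
    (1 / 2 - 1 / K) (κ + 3 / 2 * (1 / K)) r0 (by linarith) (by positivity) (by nlinarith) N (by
      refine lt_of_lt_of_le ?_ (Real.exp_le_exp.2 hN)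
      rw [Fintype.card_fun, Fintype.card_fin, Fintype.card_fin, Nat.cast_pow, mul_comm _ (d : ℝ),
        Real.exp_nat_mul]
      exact pow_lt_pow_left₀ ((lt_add_one _).trans_le (Real.add_one_le_exp _))
        (Nat.cast_nonneg _) (by omega))
  have key : ∀ x : EuclideanSpace ℝ (Fin d), ∃ o : Option (Fin N),
      (∀ i, 0 ≤ x i ∧ x i < 2 * d + 1) → ∃ k i, o = some k ∧ Gd (1 / 2) κ (ω k) i x := by
    intro x
    by_cases hx : ∀ i, 0 ≤ x i ∧ x i < 2 * d + 1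
    · obtain ⟨t, ht⟩ := grid hd hK x hx
      obtain ⟨k, i, hk⟩ := h t
      have := hk.move ht
      rw [sub_add_cancel, add_sub_cancel_right] at this
      exact ⟨some k, fun _ => ⟨k, i, rfl, this⟩⟩
    · exact ⟨none, fun h => absurd h hx⟩
  choose g hg using key
  refine extend g fun x y hx hy hn he => ?_
  obtain ⟨k, i, e1, h1⟩ := hg x hx
  obtain ⟨k', j, e2, h2⟩ := hg y hy
  rw [e1, e2] at he
  obtain rfl := Option.some.inj he
  exact Gd.ne le_rfl κ0.le hκ h2 h1 hn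

theorem upper (c : ℝ) (hc : 3 * √3 / 2 < c) : ∃ d₀ : ℕ, ∀ d n : ℕ, d₀ ≤ d → c ^ d ≤ (n : ℝ) →
    ∃ f : EuclideanSpace ℝ (Fin d) → EuclideanSpace ℝ (Fin n),
      (∀ x y, ‖x - y‖ = 1 → ‖f x - f y‖ = 1) ∧ ¬ ∀ x y, ‖f x - f y‖ = ‖x - y‖ := by
  have s3 : (√3 : ℝ) ^ 2 = 3 := Real.sq_sqrt (by norm_num)
  have s0 : (0 : ℝ) < √3 := by positivity
  have s1 : (1 : ℝ) ≤ √3 := by nlinarith
  set κ : ℝ := 3 * √3 / 4 with hκ
  have κ0 : 0 < κ := by positivity
  have c0 : 0 < c := by linarith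
  obtain ⟨K', hK⟩ := exists_nat_one_div_lt (show 0 < (c / 2 - κ) / (3 / 2 + c) from
    div_pos (by linarith) (by positivity))
  set K : ℕ := K' + 1 with hKd
  have eK : (K : ℝ) = K' + 1 := by rw [hKd, Nat.cast_succ]
  rw [← eK, lt_div_iff₀ (by positivity)] at hK
  have K1 : (1 : ℝ) ≤ K := by exact_mod_cast (show 1 ≤ K by omega)
  have K0 : (0 : ℝ) < 1 / K := by positivity
  have r0 : (0 : ℝ) < 1 / 2 - 1 / K := by
    by_contra h
    nlinarith [mul_le_mul_of_nonneg_left (not_lt.1 h) c0.le]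
  set b : ℝ := (κ + 3 / 2 * (1 / K)) / (1 / 2 - 1 / K) with hb
  have b1 : 1 ≤ b := (one_le_div r0).2 (by linarith)
  have b2 : b < c := (div_lt_iff₀ r0).2 (by linarith)
  have lim := tendsto_pow_const_mul_const_pow_of_abs_lt_one 4 (r := b / c)
    (by rw [abs_of_pos (by positivity)]; exact (div_lt_one c0).2 b2)
  obtain ⟨d₀, h⟩ := eventually_atTop.1 (lim.eventually
    (gt_mem_nhds (show (0 : ℝ) < 1 / (60 * K) by positivity)))
  refine ⟨d₀ + 1, fun d n hd hn => ?_⟩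
  have d1 : (1 : ℝ) ≤ d := by exact_mod_cast (show 1 ≤ d by omega)
  have bd : 1 ≤ b ^ d := one_le_pow₀ b1
  set M : ℝ := (((2 * d + 1) * (K * d) : ℕ) : ℝ) with hM
  have M1 : M ≤ 3 * (K * d ^ 2) := by
    rw [hM]
    push_cast
    nlinarith [mul_le_mul_of_nonneg_left d1 (show (0 : ℝ) ≤ K * d by positivity)]
  have M0 : 0 ≤ M := Nat.cast_nonneg _
  obtain ⟨col, hcol⟩ := colour (d := d) (K := K) (by omega) (by omega) κ κ0
    (by rw [hκ]; nlinarith) r0 ⌈8 * (M * d) * b ^ d⌉₊ (by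
      have a1 := Nat.le_ceil (8 * (M * d) * b ^ d)
      rw [← inv_div (κ + 3 / 2 * (1 / K)), ← hb, inv_pow, ← hM, div_mul_eq_mul_div,
        le_div_iff₀ (by norm_num),
        inv_mul_eq_div, le_div_iff₀ (by positivity)]
      linarith)
  refine to_map (by omega) ?_ col hcol
  have a1 := Nat.ceil_lt_add_one (show 0 ≤ 8 * (M * d) * b ^ d by positivity)
  have a2 := h d (by omega)
  rw [div_pow, ← mul_div_assoc, div_lt_div_iff₀ (by positivity) (by positivity)] at a2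
  have a3 : (1 : ℝ) ≤ K * d ^ 3 * b ^ d :=
    one_le_mul_of_one_le_of_one_le (one_le_mul_of_one_le_of_one_le K1 (one_le_pow₀ d1)) bd
  have a4 : M * (d * b ^ d) ≤ 3 * (K * d ^ 2) * (d * b ^ d) :=
    mul_le_mul_of_nonneg_right M1 (by positivity)
  have a5 : (⌈8 * (M * d) * b ^ d⌉₊ : ℝ) + 1 ≤ 26 * (K * d ^ 3 * b ^ d) := by nlinarith
  have a6 : ((d : ℝ) + 1) * ((⌈8 * (M * d) * b ^ d⌉₊ : ℝ) + 1) ≤
      (2 * d) * (26 * (K * d ^ 3 * b ^ d)) :=
    mul_le_mul (by linarith) a5 (by positivity) (by positivity)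
  have a7 : (0 : ℝ) ≤ d * (K * d ^ 3 * b ^ d) := by positivity
  have a8 : ((d : ℝ) + 1) * ((⌈8 * (M * d) * b ^ d⌉₊ : ℝ) + 1) ≤ n := by nlinarith
  rw [Fintype.card_prod, ZMod.card, Fintype.card_option, Fintype.card_fin]
  exact_mod_cast a8

end Pool.Agent.MP_66cee2_co.H44U
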